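import Pool.Agent.Lib.MP_94fdc2_nt.Main

/-!
# Splittings `n = x + y` with `n x + y` and `n y - x` both almost prime (MP_94fdc2_nt)
-/

set_option autoImplicit false

namespace Pool.Agent.Results.MP_94fdc2_nt.AlmostPrimes

open ArithmeticFunction Pool.Agent.MP_94fdc2_nt

/-- The `x` of the splittings `n = x + y` in positive integers such that every prime factor `p` of
`n x + y` and of `n y - x` satisfies `n < p ^ D`. -/
def T (D n : ℕ) : Set ℕ :=
  {x | ∃ y : ℕ, 0 < x ∧ 0 < y ∧ x + y = n ∧
    ∀ p : ℕ, p.Prime → (p ∣ n * x + y ∨ p ∣ n * y - x) → n < p ^ D}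

theorem forms (n x y : ℕ) (hx : 0 < x) (hy : 0 < y) (h : x + y = n) :
    ((n * x + y : ℕ) : ℤ) * ((n * y - x : ℕ) : ℤ) = FF n x ∧ 0 < n * x + y ∧ 0 < n * y - x ∧
      n * x + y ≤ n ^ 2 ∧ n * y - x ≤ n ^ 2 := by
  have h1 : x < n * y := by
    calc x < n := by omega
      _ = n * 1 := (mul_one n).symm
      _ ≤ n * y := Nat.mul_le_mul_left _ hy
  refine ⟨?_, by positivity, by omega, ?_, ?_⟩
  · unfold FF
    rw [Nat.cast_sub h1.le]
    have h2 : (y : ℤ) = n - x := by
      rw [← h]
      push_cast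
      ring
    push_cast
    rw [h2]
    ring
  · have h3 : x ≤ n - 1 := by omega
    obtain ⟨k, hk⟩ : ∃ k, n = k + 1 := ⟨n - 1, by omega⟩
    have h4 : x ≤ k := by omega
    have h5 : y = k + 1 - x := by omega
    have h6 : n * x + y ≤ n * x + (n - x) := by omega
    calc n * x + y ≤ n * k + (k + 1) := by
          subst hk
          have h7 : k * x ≤ k * k := Nat.mul_le_mul_left _ h4
          have h8 : (k + 1) * x = k * x + x := by ring
          have h9 : (k + 1) * k = k * k + k := by ring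
          omega
      _ ≤ n ^ 2 := by
          subst hk
          ring_nf
          omega
  · calc n * y - x ≤ n * y := Nat.sub_le _ _
      _ ≤ n * n := Nat.mul_le_mul_left _ (by omega)
      _ = n ^ 2 := (sq n).symm

theorem Omega_bound {v n D : ℕ} (hv : v ≠ 0) (hD : 1 ≤ D) (hle : v ≤ n ^ 2)
    (h : ∀ p : ℕ, p.Prime → p ∣ v → n < p ^ D) : cardFactors v ≤ 2 * D := by
  rw [cardFactors_apply]
  by_contra hcon
  push Not at hcon
  have hn : 1 ≤ n := by
    by_contra h0
    have h1 : n = 0 := by omega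
    rw [h1] at hle
    omega
  -- the product of the `D`-th powers of the prime factors
  have h1 : n ^ v.primeFactorsList.length ≤ (v.primeFactorsList.map (fun p => p ^ D)).prod := by
    have h2 := List.pow_card_le_prod (l := v.primeFactorsList.map (fun p => p ^ D)) (n := n) (by
      intro q hq
      rw [List.mem_map] at hq
      obtain ⟨p, hp, rfl⟩ := hq
      exact (h p (Nat.prime_of_mem_primeFactorsList hp) (Nat.dvd_of_mem_primeFactorsList hp)).le)
    rwa [List.length_map] at h2
  have h3 : (v.primeFactorsList.map (fun p => p ^ D)).prod = v ^ D := by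
    have h4 := (List.prod_hom v.primeFactorsList (powMonoidHom D : ℕ →* ℕ))
    rw [Nat.prod_primeFactorsList hv] at h4
    exact h4
  rw [h3] at h1
  have h5 : v ^ D ≤ n ^ (2 * D) := by
    calc v ^ D ≤ (n ^ 2) ^ D := Nat.pow_le_pow_left hle _
      _ = n ^ (2 * D) := (pow_mul _ _ _).symm
  have h6 : n ^ (2 * D + 1) ≤ n ^ v.primeFactorsList.length := Nat.pow_le_pow_right hn hcon
  rcases Nat.lt_or_ge 1 n with h7 | h7
  · have h8 : n ^ (2 * D) < n ^ (2 * D + 1) := Nat.pow_lt_pow_right h7 (Nat.lt_succ_self _)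
    omega
  · have h9 : n = 1 := by omega
    subst h9
    have h10 : v = 1 := by
      have : v ≤ 1 := by simpa using hle
      omega
    subst h10
    simp at hcon

theorem n0_le : 30030 * (2 ^ 408 + 4) ≤ 2 ^ 424 := by
  have h : (2 : ℕ) ^ 424 = 2 ^ 408 * 65536 := by
    have h1 : (65536 : ℕ) = 2 ^ 16 := by norm_num
    rw [h1, ← pow_add]
  have h2 : 2 ^ 2 ≤ 2 ^ 408 := Nat.pow_le_pow_right (by norm_num) (by norm_num)
  rw [h]
  generalize 2 ^ 408 = X at h2 ⊢
  omega

/-- For every `n ≥ 3` there is a splitting `n = x + y` such that `n x + y` and `n y - x` have at most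
`1666` prime factors each (with multiplicity); and for every `n ≥ 2 ^ 424` more than `n ^ (1 / 5)`
splittings `n = x + y` have the property that `n x + y` and `n y - x` have no prime factor
`p ≤ n ^ (1 / 833)`. -/
theorem result :
    (∀ n : ℕ, 3 ≤ n → ∃ x y : ℕ, 0 < x ∧ 0 < y ∧ x + y = n ∧
      cardFactors (n * x + y) ≤ 1666 ∧ cardFactors (n * y - x) ≤ 1666) ∧
    ∀ n : ℕ, 2 ^ 424 ≤ n → n < {x : ℕ | ∃ y : ℕ, 0 < x ∧ 0 < y ∧ x + y = n ∧
      ∀ p : ℕ, p.Prime → (p ∣ n * x + y ∨ p ∣ n * y - x) → n < p ^ 833}.ncard ^ 5 := by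
  classical
  have hA : ∀ n : ℕ, 30030 * (2 ^ 408 + 4) ≤ n → n < (T 833 n).ncard ^ 5 := by
    intro n hn
    obtain ⟨F, hF, hF2⟩ := main n hn
    refine hF.trans_le (Nat.pow_le_pow_left ?_ _)
    have hfin : (T 833 n).Finite := by
      refine Set.Finite.subset (Set.finite_Iic n) ?_
      rintro x ⟨y, _, _, h3, _⟩
      rw [Set.mem_Iic]
      omega
    rw [← Set.ncard_coe_finset]
    refine Set.ncard_le_ncard ?_ hfin
    intro x hx
    obtain ⟨h1, h2, h3⟩ := hF2 x (Finset.mem_coe.mp hx)
    refine ⟨n - x, by omega, by omega, by omega, ?_⟩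
    intro p hp hor
    apply h3 p hp
    obtain ⟨h4, _⟩ := forms n x (n - x) (by omega) (by omega) (by omega)
    rw [← h4]
    rcases hor with h5 | h5
    · exact Dvd.dvd.mul_right (Int.natCast_dvd_natCast.mpr h5) _
    · exact Dvd.dvd.mul_left (Int.natCast_dvd_natCast.mpr h5) _
  have hB : ∀ n x y : ℕ, x ∈ T 833 n → x + y = n →
      cardFactors (n * x + y) ≤ 2 * 833 ∧ cardFactors (n * y - x) ≤ 2 * 833 := by
    rintro n x y ⟨y', h1, h2, h3, h4⟩ h5
    have h6 : y' = y := by omega
    subst h6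
    obtain ⟨_, h7, h8, h9, h10⟩ := forms n x y' h1 h2 h3
    exact ⟨Omega_bound (by omega) (by norm_num) h9 (fun p hp hd => h4 p hp (Or.inl hd)),
      Omega_bound (by omega) (by norm_num) h10 (fun p hp hd => h4 p hp (Or.inr hd))⟩
  refine ⟨?_, ?_⟩
  · intro n hn
    rcases Nat.lt_or_ge n (2 ^ 424) with h | h
    · have hb : ∀ v : ℕ, v ≠ 0 → v ≤ n ^ 2 → cardFactors v ≤ 1666 := by
        intro v hv hle
        rw [cardFactors_apply]
        have h1 : 2 ^ v.primeFactorsList.length ≤ v.primeFactorsList.prod := by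
          apply List.pow_card_le_prod
          intro p hp
          exact (Nat.prime_of_mem_primeFactorsList hp).two_le
        rw [Nat.prod_primeFactorsList hv] at h1
        have h3 : n ^ 2 ≤ (2 ^ 424) ^ 2 := Nat.pow_le_pow_left h.le 2
        have h4 : 2 ^ v.primeFactorsList.length ≤ 2 ^ (424 * 2) := by
          rw [pow_mul]
          exact h1.trans (hle.trans h3)
        have h5 : v.primeFactorsList.length ≤ 424 * 2 :=
          (Nat.pow_le_pow_iff_right (by norm_num)).mp h4
        omega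
      obtain ⟨_, h7, h8, h9, h10⟩ := forms n 1 (n - 1) (by omega) (by omega) (by omega)
      exact ⟨1, n - 1, by omega, by omega, by omega, hb _ (by omega) h9, hb _ (by omega) h10⟩
    · have h1 := hA n (n0_le.trans h)
      have hne : (T 833 n).Nonempty := by
        rw [Set.nonempty_iff_ne_empty]
        intro h0
        rw [h0, Set.ncard_empty, zero_pow (by norm_num)] at h1
        omega
      obtain ⟨x, hx⟩ := hne
      obtain ⟨y, h2, h3, h4, h5⟩ := id hx
      obtain ⟨h6, h7⟩ := hB n x y hx h4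
      exact ⟨x, y, h2, h3, h4, h6, h7⟩
  · intro n hn
    exact hA n (n0_le.trans hn)

end Pool.Agent.Results.MP_94fdc2_nt.AlmostPrimes
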